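import Pool.Agent.Lib.MP_fced27_nt.Upper

set_option autoImplicit false

namespace Pool.Agent.Results.MP_fced27_nt.ManyExceptions

open Pool.Agent.Lib.MP_fced27_nt

/-- If a prime divides `k` but not `l`, the number of `n ≤ X` for which `l n + 1` fails to divide
`choose (k n + l n) (k n)` lies between `X ^ δ` and `X ^ (1 - δ)`. -/
theorem result (k l p : ℕ) (hk0 : 0 < k) (hp : p.Prime) (hk : p ∣ k) (hl : ¬ p ∣ l) :
    ∃ δ : ℝ, 0 < δ ∧ ∃ X₀ : ℕ, ∀ X : ℕ, X₀ ≤ X →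
      (X : ℝ) ^ δ ≤
        ({n : ℕ | n ≤ X ∧ ¬ l * n + 1 ∣ (k * n + l * n).choose (k * n)}.ncard : ℝ) ∧
      ({n : ℕ | n ≤ X ∧ ¬ l * n + 1 ∣ (k * n + l * n).choose (k * n)}.ncard : ℝ) ≤
        (X : ℝ) ^ (1 - δ) := by
  obtain ⟨δ, h1, X₁, h2⟩ := lower hp hk hl
  obtain ⟨δ', h3, X₂, h4⟩ := upper hk0 (Nat.pos_of_ne_zero (fun h : l = 0 => hl (h ▸ dvd_zero p)))
  refine ⟨min δ δ', lt_min h1 h3, X₁ + X₂ + 1, fun X hX => ?_⟩
  have h5 : (1 : ℝ) ≤ X := by exact_mod_cast (show 1 ≤ X by omega)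
  exact ⟨(Real.rpow_le_rpow_of_exponent_le h5 (min_le_left _ _)).trans (h2 X (by omega)),
    (h4 X (by omega)).trans
      (Real.rpow_le_rpow_of_exponent_le h5 (sub_le_sub_left (min_le_right _ _) 1))⟩

end Pool.Agent.Results.MP_fced27_nt.ManyExceptions
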