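import Pool.Agent.Lib.MP_fced27_nt.SunTwo

set_option autoImplicit false

namespace Pool.Agent.Results.MP_fced27_nt.SunFirst

open Pool.Agent.Lib.MP_fced27_nt.SunTwo

/-- For any multiplier `c ≥ 1`, the divisibility
`choose (k n) n ∣ c * choose (l n) n * choose (k l n) (l n - 1)` holds for all large `n` only if
`k = l`, `l = 2` or `{k, l} = {3, 5}`; in these cases it holds for every `n ≥ 1`. -/
theorem result (k l c : ℕ) (hk : 2 ≤ k) (hl : 2 ≤ l) (hc : 1 ≤ c) :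
    ((∃ N : ℕ, ∀ n : ℕ, N ≤ n →
        (k * n).choose n ∣ c * (l * n).choose n * (k * l * n).choose (l * n - 1)) →
      k = l ∨ l = 2 ∨ (k = 3 ∧ l = 5) ∨ (k = 5 ∧ l = 3)) ∧
    ((k = l ∨ l = 2 ∨ (k = 3 ∧ l = 5) ∨ (k = 5 ∧ l = 3)) → ∀ n : ℕ, 1 ≤ n →
        (k * n).choose n ∣ c * (l * n).choose n * (k * l * n).choose (l * n - 1)) :=
  ⟨fun ⟨_, H⟩ => partA (by omega) hk hl fun n hn => mul_assoc c _ _ ▸ H n hn,
    fun H _ _ => (mul_assoc c _ _).symm ▸ (convA (by omega) (by omega) H).mul_left c⟩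

end Pool.Agent.Results.MP_fced27_nt.SunFirst
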