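import Pool.Agent.Lib.MP_fced27_nt.SunConv

set_option autoImplicit false

namespace Pool.Agent.Results.MP_fced27_nt.SunSecond

open Pool.Agent.Lib.MP_fced27_nt.SunTwo

/-- The triples `(k, l, c)` for which
`choose (k n) n ∣ c * choose (l n) (n - 1) * choose (k l n) (l n)` holds for all large `n`:
a necessary condition, and a condition under which it holds for every `n ≥ 1`. The two lists
agree unless `k = l ≥ 3`. -/
theorem result (k l c : ℕ) (hk : 2 ≤ k) (hl : 2 ≤ l) (hc : 1 ≤ c) :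
    ((∃ N : ℕ, ∀ n : ℕ, N ≤ n →
        (k * n).choose n ∣ c * (l * n).choose (n - 1) * (k * l * n).choose (l * n)) →
      (k = 2 ∧ ∃ m : ℕ, l + 1 ∣ 2 ^ m * c) ∨ (l = 2 ∧ 2 * k - 1 ∣ c) ∨
        (k = 3 ∧ l = 5 ∧ 77 ∣ c) ∨ (k = 5 ∧ l = 3 ∧ 1001 ∣ c) ∨
        (k = l ∧ 3 ≤ k ∧ ∀ p : ℕ, p.Prime → p ∣ 2 * k - 1 → p ∣ c)) ∧
    (((k = 2 ∧ ∃ m : ℕ, l + 1 ∣ 2 ^ m * c) ∨ (l = 2 ∧ 2 * k - 1 ∣ c) ∨
        (k = 3 ∧ l = 5 ∧ 77 ∣ c) ∨ (k = 5 ∧ l = 3 ∧ 1001 ∣ c) ∨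
        (k = l ∧ ∀ j : ℕ, 1 ≤ j → j ≤ k → (k - 1) * j + 1 ∣ c)) → ∀ n : ℕ, 1 ≤ n →
        (k * n).choose n ∣ c * (l * n).choose (n - 1) * (k * l * n).choose (l * n)) :=
  ⟨fun ⟨_, H⟩ => partM (by omega) hk hl fun n hn => by
      unfold Dv; rw [← mul_assoc]; exact H n hn,
    fun H n hn => by rw [mul_assoc]; exact convM (by omega) hk hl hn H⟩

/-- The case `c = 1`: the divisibility holds for all large `n` only if `k = 2` and `l + 1` is a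
power of two; in this case it holds for every `n ≥ 1`. -/
theorem multiplier_one (k l : ℕ) (hk : 2 ≤ k) (hl : 2 ≤ l) :
    ((∃ N : ℕ, ∀ n : ℕ, N ≤ n →
        (k * n).choose n ∣ (l * n).choose (n - 1) * (k * l * n).choose (l * n)) →
      k = 2 ∧ ∃ m : ℕ, l + 1 = 2 ^ m) ∧
    ((k = 2 ∧ ∃ m : ℕ, l + 1 = 2 ^ m) → ∀ n : ℕ, 1 ≤ n →
        (k * n).choose n ∣ (l * n).choose (n - 1) * (k * l * n).choose (l * n)) := by
  obtain ⟨h1, h2⟩ := result k l 1 hk hl le_rfl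
  simp only [one_mul, mul_one, Nat.dvd_one] at h1 h2
  refine ⟨fun H => ?_, fun ⟨a, m, b⟩ => h2 (Or.inl ⟨a, m, b ▸ dvd_rfl⟩)⟩
  rcases h1 H with ⟨a, m, b⟩ | ⟨-, b⟩ | ⟨-, -, b⟩ | ⟨-, -, b⟩ | ⟨-, -, b⟩
  · obtain ⟨s, -, e⟩ := (Nat.dvd_prime_pow Nat.prime_two).1 b
    exact ⟨a, s, e⟩
  · omega
  · omega
  · omega
  · obtain ⟨p, hp, hd⟩ := Nat.exists_prime_and_dvd (n := 2 * k - 1) (by omega)
    exact absurd (b p hp hd) hp.one_lt.ne'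

end Pool.Agent.Results.MP_fced27_nt.SunSecond
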